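import Mathlib
import Pool.Agent.MP_91fb13_lc.Tree

/-!
For every cardinal `κ ≥ 2` there is a rigid, uniformly `κ`-branching branchwise-real tree.
-/

set_option autoImplicit false

namespace Pool.Agent.Results.MP_91fb13_lc.RigidUniformTree

universe u

/-- A tree order: the set of elements below any given element is linearly ordered. -/
def IsTreeOrder (X : Type u) [PartialOrder X] : Prop :=
  ∀ x : X, IsChain (· ≤ ·) {y : X | y ≤ x}

/-- A branchwise-real tree: a tree order in which every branch (maximal chain) is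
order-isomorphic to an interval of the real line and any two elements have a meet. -/
def IsBranchwiseReal (X : Type u) [PartialOrder X] : Prop :=
  IsTreeOrder X ∧
    (∀ B : Set X, IsMaxChain (· ≤ ·) B → ∃ I : Set ℝ, I.OrdConnected ∧ Nonempty (B ≃o I)) ∧
    ∀ x y : X, ∃ m : X, IsGLB {x, y} m

/-- Two elements above `x` lie in the same component above `x`. -/
def SameComponent {X : Type u} [PartialOrder X] (x : X) (y z : {y : X // x < y}) : Prop :=
  ∃ w : X, x < w ∧ w ≤ y.1 ∧ w ≤ z.1

/-- The degree of `x`: the number of components above `x`. -/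
def degree {X : Type u} [PartialOrder X] (x : X) : Cardinal.{u} :=
  Cardinal.mk (Quot (SameComponent x))

/-- The only order-automorphism is the identity. -/
def IsRigid (X : Type u) [PartialOrder X] : Prop :=
  ∀ φ : X ≃o X, φ = OrderIso.refl X

open Pool.Agent.MP_91fb13_lc in
/-- For every cardinal `κ ≥ 2` (in particular for every `κ` above the successor of the continuum)
there is a nonempty rigid uniformly `κ`-branching branchwise-real tree; it moreover admits a
strictly increasing map into the reals. -/
theorem result (κ : Cardinal.{u}) (hκ : 2 ≤ κ) :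
    ∃ (X : Type u) (_ : PartialOrder X), Nonempty X ∧ IsBranchwiseReal X ∧
      (∀ x : X, degree x = κ) ∧ IsRigid X ∧ ∃ g : X → ℝ, StrictMono g := by
  obtain ⟨G, hG1, hG2⟩ := exists_generic (C := ℝ × ℝ × Prop) (by simp [Cardinal.mk_real])
  have hL : Cardinal.mk κ.ord.ToType = κ := Cardinal.mk_ord_toType κ
  have hnt : Nontrivial κ.ord.ToType := by
    rw [← Cardinal.one_lt_iff_nontrivial, hL]
    exact lt_of_lt_of_le (by norm_num) hκ
  obtain ⟨d⟩ : Nonempty κ.ord.ToType := inferInstance
  refine ⟨Pt κ.ord.ToType d G, inferInstance, ⟨Pt.root⟩, ⟨?_, Pt.branch_iso, Pt.exists_glb⟩, ?_,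
    ?_, Pt.h, fun _ _ h => Pt.h_lt h⟩
  · intro x y hy z hz _
    exact Pt.total_of_le hy hz
  · intro x
    refine Eq.trans ?_ hL
    refine Cardinal.mk_congr (Equiv.ofBijective
      (Quot.lift (fun y : {y // x < y} => y.1.f x.h)
        (fun y z h => (Pt.sameComp_iff y.2 z.2).1 h)) ⟨?_, ?_⟩)
    · rintro ⟨y⟩ ⟨z⟩ h
      exact Quot.sound ((Pt.sameComp_iff y.2 z.2).2 h)
    · intro ξ
      obtain ⟨w, hw, hwf⟩ := x.exists_extend ξ
      exact ⟨Quot.mk _ ⟨w, hw⟩, hwf⟩
  · intro φ
    ext y : 2
    exact Pt.rigid hG1 hG2 φ y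

end Pool.Agent.Results.MP_91fb13_lc.RigidUniformTree
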